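import Mathlib
import Pool.Agent.N256.LLP.Defs
import Pool.Agent.N256.LLP.Main

/-!
# The law of large permanents for ergodic actions of the semigroup of pairs of natural numbers

For commuting measure preserving maps `T₁`, `T₂` of a probability space without nontrivial sets
invariant under both maps, and a measurable function `f` with bounded logarithm, the permanental
means of the matrices `(f (T₁^i T₂^j ω))`, `0 ≤ i, j < n`, tend to the scaling mean of `f` for almost
every `ω`.

Proof. (1) The entropy method gives the upper bound `per B ≤ m ^ n n! exp (L / m H_n)` for a positive
matrix with entries at most `L` and mean value at most `m`, `H_n` the harmonic number. (2) The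
inequality of Gurvits gives the lower bound `per B ≥ exp (-n e) n!`, where `e` is small if the averages
of most rows and most columns are close to one. (3) There are bounded invariant functions `b₁`, `b₂`
with almost optimal value such that the conditional expectation of `h = b₁ f b₂` given the invariant
sets of `T₂` is one, and given the invariant sets of `T₁` is close to one in the mean. (4) By the
pointwise ergodic theorem and a maximal function most rows and columns of the matrix of `h` have
averages close to one.
-/

set_option autoImplicit false

open MeasureTheory Filter Topology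
open scoped ENNReal

namespace Pool.Agent.N256.Shelf.LargePermanents_79d3d7

open Pool.Agent.N256.LLP

/-- **Law of large permanents.** Let `T₁`, `T₂` be commuting measure preserving maps of a probability
space such that every set invariant under both has measure zero or one, and let `f` be a measurable
function, positive almost everywhere, with essentially bounded logarithm. Then the scaling mean of `f`
is a positive real number, and for almost every `ω` the permanental means of the matrices
`f^{(n)}(ω)` tend to it. -/
theorem result {Ω : Type*} [MeasurableSpace Ω] (P : Measure Ω) [IsProbabilityMeasure P]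
    (T₁ T₂ : Ω → Ω) (hT₁ : MeasurePreserving T₁ P P) (hT₂ : MeasurePreserving T₂ P P)
    (hcomm : ∀ ω, T₁ (T₂ ω) = T₂ (T₁ ω))
    (herg : ∀ A : Set Ω, MeasurableSet A → T₁ ⁻¹' A = A → T₂ ⁻¹' A = A → P A = 0 ∨ P A = 1)
    (f : Ω → ℝ) (hf : Measurable f) (hpos : ∀ᵐ ω ∂P, 0 < f ω)
    (hlog : ∃ C : ℝ, ∀ᵐ ω ∂P, |Real.log (f ω)| ≤ C) :
    smean P T₁ T₂ f ≠ 0 ∧ smean P T₁ T₂ f ≠ ∞ ∧
      ∀ᵐ ω ∂P, Tendsto (fun n : ℕ => pmean (sampled T₁ T₂ f n ω)) atTop
        (𝓝 (smean P T₁ T₂ f).toReal) :=
  main hT₁ hT₂ hcomm herg hf hpos hlog

end Pool.Agent.N256.Shelf.LargePermanents_79d3d7
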